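import Pool.Agent.W355.FR.Stm

namespace Pool.Agent.W355.FR

open Polynomial UpperHalfPlane

/-- a form of degree `D` is `O(H^D)` on the box -/
theorem hv_bound (D : ℕ) (f : ℤ[X]) : ∃ C : ℝ, 0 ≤ C ∧ ∀ H : ℕ, ∀ x ∈ box H,
    |((hv D f x.1 x.2 : ℤ) : ℝ)| ≤ C * (H : ℝ) ^ D := by
  refine ⟨∑ i ∈ Finset.range (D + 1), |(f.coeff i : ℝ)|, Finset.sum_nonneg fun _ _ => abs_nonneg _,
    fun H x hx => ?_⟩
  rw [box, Finset.mem_filter, Finset.mem_product, Finset.mem_Icc, Finset.mem_Icc] at hx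
  obtain ⟨⟨⟨h1, h2⟩, h3, h4⟩, -⟩ := hx
  have ha : |(x.1 : ℝ)| ≤ H := by
    rw [abs_le]; constructor
    · exact_mod_cast h1
    · exact_mod_cast h2
  have hb : |(x.2 : ℝ)| ≤ H := by
    rw [abs_le]; constructor
    · exact_mod_cast h3
    · exact_mod_cast h4
  unfold hv
  push_cast
  refine (Finset.abs_sum_le_sum_abs _ _).trans ?_
  rw [Finset.sum_mul]
  refine Finset.sum_le_sum fun i hi => ?_
  rw [Finset.mem_range] at hi
  rw [abs_mul, abs_mul, abs_pow, abs_pow, mul_assoc]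
  refine mul_le_mul_of_nonneg_left ?_ (abs_nonneg _)
  calc |(x.1 : ℝ)| ^ i * |(x.2 : ℝ)| ^ (D - i) ≤ (H : ℝ) ^ i * (H : ℝ) ^ (D - i) :=
        mul_le_mul (pow_le_pow_left₀ (abs_nonneg _) ha _) (pow_le_pow_left₀ (abs_nonneg _) hb _)
          (by positivity) (by positivity)
    _ = (H : ℝ) ^ D := by rw [← pow_add]; congr 1; omega

theorem finl : P_FINL := by
  intro hmsz hcn ⟨C, hub⟩ k A B hk hA hB hD hmin hj hP θ hθ δ hδ
  have hA0 : A ≠ 0 := by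
    rintro rfl; apply hj; simp
  have hB0 : B ≠ 0 := by
    rintro rfl; apply hj; simp
  have hD0 : 4 * A ^ 3 + 27 * B ^ 2 ≠ 0 := by
    intro h0; rw [h0, natDegree_zero] at hD; omega
  obtain ⟨S, hS, hcop, hsum⟩ := hmsz k A B hA hB hD hD0 hmin hj
  have hk0 : (0 : ℝ) < 2 * k + 1 := by positivity
  have hθ0 : 0 < θ := lt_of_le_of_lt (by positivity) hθ
  have hkθ : (k : ℝ) < θ * (2 * k + 1) := by rwa [div_lt_iff₀ hk0] at hθ
  -- ε
  set ε : ℝ := (θ * (2 * k + 1) - k) / (2 * θ) with hε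
  have hε0 : 0 < ε := div_pos (by linarith) (by linarith)
  have hgap : (k : ℝ) < θ * ((2 * k + 1) - ε) := by
    have : θ * ε = (θ * (2 * k + 1) - k) / 2 := by rw [hε]; field_simp
    nlinarith
  obtain ⟨H₁, hH₁⟩ := hcn k A B hA hB hA0 hB0 hD0 S
    (fun P hPS => ⟨(hS P hPS).1, (hS P hPS).2.1, hP P (hS P hPS).1 (hS P hPS).2.2,
      (hS P hPS).2.2, fun h => hmin P (hS P hPS).1 (hS P hPS).2.1 h⟩) hcop ε δ hε0 hδ
  obtain ⟨CA, hCA0, hCA⟩ := hv_bound (4 * k) A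
  obtain ⟨CB, hCB0, hCB⟩ := hv_bound (6 * k) B
  -- total constant
  set M : ℝ := 6912 * CA ^ 3 + (4 * CA ^ 3 + 27 * CB ^ 2) + 1 with hM
  have hM0 : 0 < M := by positivity
  have hlim : ∃ H₂ : ℕ, ∀ H : ℕ, H₂ ≤ H →
      Real.log M / 12 + C ≤ (θ * ((2 * k + 1) - ε) - k) * Real.log H := by
    have ht : Filter.Tendsto (fun H : ℕ => (θ * ((2 * k + 1) - ε) - k) * Real.log H)
        Filter.atTop Filter.atTop :=
      (Real.tendsto_log_atTop.comp tendsto_natCast_atTop_atTop).const_mul_atTop (by linarith)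
    obtain ⟨H₂, h⟩ := Filter.eventually_atTop.mp (ht.eventually_ge_atTop (Real.log M / 12 + C))
    exact ⟨H₂, fun H hH => h H hH⟩
  obtain ⟨H₂, hH₂⟩ := hlim
  refine ⟨max (max H₁ H₂) 1, fun H hH s hs hx => ?_⟩
  have hHH₁ : H₁ ≤ H := (le_max_left _ _).trans ((le_max_left _ _).trans hH)
  have hHH₂ : H₂ ≤ H := (le_max_right _ _).trans ((le_max_left _ _).trans hH)
  have hH1 : 1 ≤ H := (le_max_right _ _).trans hH
  have hHr : (1 : ℝ) ≤ H := by exact_mod_cast hH1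
  have hlogH : 0 ≤ Real.log H := Real.log_nonneg hHr
  refine hH₁ H hHH₁ s hs fun x hxs hgood => hx x hxs ?_
  obtain ⟨hcond, hne⟩ := hgood
  refine ⟨hne, fun τ hτ => ?_⟩
  have h1 := hub (hv (4 * k) A x.1 x.2) (hv (6 * k) B x.1 x.2) hne τ hτ
  have ha := hCA H x (hs hxs)
  have hb := hCB H x (hs hxs)
  set u : ℝ := ((hv (4 * k) A x.1 x.2 : ℤ) : ℝ) with hu
  set v : ℝ := ((hv (6 * k) B x.1 x.2 : ℤ) : ℝ) with hv'
  have hu3 : |u| ^ 3 ≤ CA ^ 3 * (H : ℝ) ^ (12 * k) := by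
    calc |u| ^ 3 ≤ (CA * (H : ℝ) ^ (4 * k)) ^ 3 := pow_le_pow_left₀ (abs_nonneg _) ha _
      _ = CA ^ 3 * (H : ℝ) ^ (12 * k) := by rw [mul_pow, ← pow_mul]; congr 2; ring
  have hv2 : |v| ^ 2 ≤ CB ^ 2 * (H : ℝ) ^ (12 * k) := by
    calc |v| ^ 2 ≤ (CB * (H : ℝ) ^ (6 * k)) ^ 2 := pow_le_pow_left₀ (abs_nonneg _) hb _
      _ = CB ^ 2 * (H : ℝ) ^ (12 * k) := by rw [mul_pow, ← pow_mul]; congr 2; ring
  have hHp : (0 : ℝ) < (H : ℝ) ^ (12 * k) := by positivity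
  have hmax : max (6912 * |u| ^ 3) |4 * u ^ 3 + 27 * v ^ 2| ≤ M * (H : ℝ) ^ (12 * k) := by
    have e2 : |4 * u ^ 3 + 27 * v ^ 2| ≤ 4 * |u| ^ 3 + 27 * |v| ^ 2 := by
      refine (abs_add_le _ _).trans (le_of_eq ?_)
      rw [abs_mul, abs_mul, abs_pow, abs_pow]
      norm_num
    have hCA3 : 0 ≤ CA ^ 3 := by positivity
    have hCB2 : 0 ≤ CB ^ 2 := by positivity
    refine max_le ?_ (e2.trans ?_)
    · rw [hM]; nlinarith [mul_nonneg hCA3 hHp.le, mul_nonneg hCB2 hHp.le]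
    · rw [hM]; nlinarith [mul_nonneg hCA3 hHp.le, mul_nonneg hCB2 hHp.le]
  have hmaxpos : 0 < max (6912 * |u| ^ 3) |4 * u ^ 3 + 27 * v ^ 2| := by
    refine lt_of_lt_of_le ?_ (le_max_right _ _)
    rw [abs_pos]
    have : (4 : ℝ) * u ^ 3 + 27 * v ^ 2 = ((4 * (hv (4 * k) A x.1 x.2) ^ 3 +
        27 * (hv (6 * k) B x.1 x.2) ^ 2 : ℤ) : ℝ) := by push_cast; rfl
    rw [this]
    exact_mod_cast hne
  have hlogmax : Real.log (max (6912 * |u| ^ 3) |4 * u ^ 3 + 27 * v ^ 2|) ≤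
      Real.log M + 12 * k * Real.log H := by
    refine (Real.log_le_log hmaxpos hmax).trans (le_of_eq ?_)
    rw [Real.log_mul hM0.ne' hHp.ne', Real.log_pow]
    push_cast; ring
  have h2 := hH₂ H hHH₂
  have hR : ((2 * k + 1 : ℕ) : ℝ) ≤ ((∑ P ∈ S, wt P A * P.natDegree : ℕ) : ℝ) := by
    exact_mod_cast hsum
  push_cast at hR hcond
  have h3 : ((2 * (k : ℝ) + 1) - ε) * Real.log H ≤
      Real.log (cond6 (hv (4 * k) A x.1 x.2) (hv (6 * k) B x.1 x.2)) := by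
    refine le_trans ?_ hcond
    exact mul_le_mul_of_nonneg_right (by linarith) hlogH
  have h4 : θ * (((2 * (k : ℝ) + 1) - ε) * Real.log H) ≤
      θ * Real.log (cond6 (hv (4 * k) A x.1 x.2) (hv (6 * k) B x.1 x.2)) :=
    mul_le_mul_of_nonneg_left h3 hθ0.le
  nlinarith

end Pool.Agent.W355.FR
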