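import Pool.Agent.W355.FR.Stm

namespace Pool.Agent.W355.FR

theorem sum_inv_sq (H : ℕ) (hH : 2 ≤ H) :
    ∑ g ∈ Finset.Icc 2 H, (1 : ℝ) / (g : ℝ) ^ 2 ≤ 3 / 4 - 1 / H := by
  induction H, hH using Nat.le_induction with
  | base => norm_num
  | succ n hn ih =>
    rw [← Finset.insert_Icc_right_eq_Icc_add_one (by omega : 2 ≤ n + 1), Finset.sum_insert (by simp)]
    have hn' : (0 : ℝ) < n := by positivity
    have h1 : (1 : ℝ) / ((n + 1 : ℕ) : ℝ) ^ 2 ≤ 1 / n - 1 / ((n + 1 : ℕ) : ℝ) := by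
      push_cast
      rw [div_sub_div _ _ (by positivity) (by positivity), div_le_div_iff₀ (by positivity) (by positivity)]
      nlinarith
    linarith

theorem box_card (H : ℕ) : (H : ℝ) ^ 2 / 4 ≤ ((box H).card : ℝ) := by
  classical
  set U : Finset (ℕ × ℕ) := Finset.Ioc 0 H ×ˢ Finset.Ioc 0 H with hU
  have hUc : U.card = H * H := by simp [hU]
  -- bad pairs
  have hbad : ((U.filter (fun x => ¬ Nat.gcd x.1 x.2 = 1)).card : ℝ) ≤ 3 / 4 * (H : ℝ) ^ 2 := by
    have hsub : U.filter (fun x => ¬ Nat.gcd x.1 x.2 = 1) ⊆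
        (Finset.Icc 2 H).biUnion (fun g => (Finset.Ioc 0 H).filter (fun a => g ∣ a) ×ˢ
          (Finset.Ioc 0 H).filter (fun a => g ∣ a)) := by
      intro x hx
      rw [Finset.mem_filter, hU, Finset.mem_product, Finset.mem_Ioc, Finset.mem_Ioc] at hx
      obtain ⟨⟨⟨h1, h2⟩, h3, h4⟩, h5⟩ := hx
      rw [Finset.mem_biUnion]
      refine ⟨Nat.gcd x.1 x.2, ?_, ?_⟩
      · rw [Finset.mem_Icc]
        have hg0 : 0 < Nat.gcd x.1 x.2 := Nat.gcd_pos_of_pos_left _ h1
        exact ⟨by omega, (Nat.gcd_le_left _ h1).trans h2⟩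
      · rw [Finset.mem_product, Finset.mem_filter, Finset.mem_filter, Finset.mem_Ioc,
          Finset.mem_Ioc]
        exact ⟨⟨⟨h1, h2⟩, Nat.gcd_dvd_left _ _⟩, ⟨⟨h3, h4⟩, Nat.gcd_dvd_right _ _⟩⟩
    have h1 : (U.filter (fun x => ¬ Nat.gcd x.1 x.2 = 1)).card ≤
        ∑ g ∈ Finset.Icc 2 H, (H / g) * (H / g) := by
      refine (Finset.card_le_card hsub).trans (Finset.card_biUnion_le.trans ?_)
      refine Finset.sum_le_sum fun g _ => ?_
      rw [Finset.card_product, Nat.Ioc_filter_dvd_card_eq_div]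
    have h2 : ((U.filter (fun x => ¬ Nat.gcd x.1 x.2 = 1)).card : ℝ) ≤
        ∑ g ∈ Finset.Icc 2 H, (H : ℝ) ^ 2 * (1 / (g : ℝ) ^ 2) := by
      refine (Nat.cast_le.mpr h1).trans ?_
      push_cast
      refine Finset.sum_le_sum fun g hg => ?_
      have hg0 : (0 : ℝ) < g := by
        have := (Finset.mem_Icc.mp hg).1
        positivity
      have h3 : ((H / g : ℕ) : ℝ) ≤ (H : ℝ) / g := Nat.cast_div_le
      calc ((H / g : ℕ) : ℝ) * ((H / g : ℕ) : ℝ) ≤ ((H : ℝ) / g) * ((H : ℝ) / g) :=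
            mul_le_mul h3 h3 (by positivity) (by positivity)
        _ = (H : ℝ) ^ 2 * (1 / (g : ℝ) ^ 2) := by field_simp
    rw [← Finset.mul_sum] at h2
    refine h2.trans ?_
    have h4 : ∑ g ∈ Finset.Icc 2 H, (1 : ℝ) / (g : ℝ) ^ 2 ≤ 3 / 4 := by
      by_cases hH : 2 ≤ H
      · have := sum_inv_sq H hH
        have h5 : (0 : ℝ) ≤ 1 / H := by positivity
        linarith
      · rw [Finset.Icc_eq_empty (by omega)]
        norm_num
    nlinarith [sq_nonneg (H : ℝ)]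
  have hgood : ((U.filter (fun x => Nat.gcd x.1 x.2 = 1)).card : ℝ) +
      ((U.filter (fun x => ¬ Nat.gcd x.1 x.2 = 1)).card : ℝ) = (H : ℝ) ^ 2 := by
    have := Finset.card_filter_add_card_filter_not (s := U) (fun x => Nat.gcd x.1 x.2 = 1)
    rw [hUc] at this
    have h6 : (((U.filter (fun x => Nat.gcd x.1 x.2 = 1)).card +
      (U.filter (fun x => ¬ Nat.gcd x.1 x.2 = 1)).card : ℕ) : ℝ) = ((H * H : ℕ) : ℝ) := by
      rw [this]
    push_cast at h6
    rw [h6]; ring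
  have hinj : (U.filter (fun x => Nat.gcd x.1 x.2 = 1)).card ≤ (box H).card := by
    refine Finset.card_le_card_of_injOn (fun x => ((x.1 : ℤ), (x.2 : ℤ))) ?_ ?_
    · intro x hx
      have hx' := Finset.mem_coe.mp hx
      rw [Finset.mem_filter, hU, Finset.mem_product, Finset.mem_Ioc, Finset.mem_Ioc] at hx'
      obtain ⟨⟨⟨h1, h2⟩, h3, h4⟩, h5⟩ := hx'
      rw [Finset.mem_coe, box, Finset.mem_filter, Finset.mem_product, Finset.mem_Icc,
        Finset.mem_Icc]
      refine ⟨⟨⟨by simp only; omega, by simp only; omega⟩, ⟨by simp only; omega, by simp only; omega⟩⟩, ?_⟩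
      simpa using h5
    · intro x _ y _ hxy
      simp only [Prod.mk.injEq, Nat.cast_inj] at hxy
      exact Prod.ext hxy.1 hxy.2
  have : ((U.filter (fun x => Nat.gcd x.1 x.2 = 1)).card : ℝ) ≤ ((box H).card : ℝ) := by
    exact_mod_cast hinj
  linarith

end Pool.Agent.W355.FR
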