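import Pool.Agent.W355.FR.Glue
import Pool.Agent.W355.FR.Box

namespace Pool.Agent.W355.FR

open Polynomial UpperHalfPlane

/-- sets with `o(H²)` complement have proportion one -/
theorem tendsto_one_of_few (good : ℤ × ℤ → Prop) [DecidablePred good]
    (h : ∀ δ : ℝ, 0 < δ → ∃ H₀ : ℕ, ∀ H : ℕ, H₀ ≤ H → ∀ s : Finset (ℤ × ℤ), s ⊆ box H →
      (∀ x ∈ s, ¬ good x) → (s.card : ℝ) ≤ δ * (H : ℝ) ^ 2) :
    Filter.Tendsto (fun H : ℕ => (((box H).filter good).card : ℝ) / (box H).card)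
      Filter.atTop (nhds 1) := by
  rw [Metric.tendsto_atTop]
  intro ε hε
  obtain ⟨H₀, hH₀⟩ := h (ε / 8) (by positivity)
  refine ⟨max H₀ 1, fun H hH => ?_⟩
  have hH0 : H₀ ≤ H := (le_max_left _ _).trans hH
  have hH1 : 1 ≤ H := (le_max_right _ _).trans hH
  have hb := hH₀ H hH0 ((box H).filter (fun x => ¬ good x)) (Finset.filter_subset _ _)
    (fun x hx => (Finset.mem_filter.mp hx).2)
  have hc := box_card H
  have hsum : (((box H).filter good).card : ℝ) + (((box H).filter (fun x => ¬ good x)).card : ℝ) =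
      (box H).card := by
    exact_mod_cast Finset.card_filter_add_card_filter_not (s := box H) good
  have hHpos : (0 : ℝ) < (H : ℝ) ^ 2 := by
    have : (0 : ℝ) < H := by exact_mod_cast hH1
    positivity
  have hbox : (0 : ℝ) < (box H).card := by linarith [div_pos hHpos (by norm_num : (0:ℝ) < 4)]
  rw [Real.dist_eq]
  have e : (((box H).filter good).card : ℝ) / (box H).card - 1 =
      -((((box H).filter (fun x => ¬ good x)).card : ℝ) / (box H).card) := by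
    field_simp
    linarith
  rw [e, abs_neg, abs_of_nonneg (by positivity), div_lt_iff₀ hbox]
  nlinarith

theorem final_of (hfin : P_FIN) (n : ℕ) (k : Fin n → ℕ) (A B : Fin n → ℤ[X])
    (hk : ∀ i, 1 ≤ k i) (hA : ∀ i, (A i).natDegree ≤ 4 * k i)
    (hB : ∀ i, (B i).natDegree ≤ 6 * k i)
    (hD : ∀ i, (4 * A i ^ 3 + 27 * B i ^ 2).natDegree = 12 * k i)
    (hmin : ∀ i, ∀ P : ℤ[X], Irreducible P → 0 < P.natDegree → P ^ 4 ∣ A i → ¬ P ^ 6 ∣ B i)
    (hj : ∀ i, 3 * derivative (A i) * B i - 2 * A i * derivative (B i) ≠ 0)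
    (hP : ∀ i, ∀ P : ℤ[X], Irreducible P → P ∣ 4 * A i ^ 3 + 27 * B i ^ 2 → P.natDegree ≤ 4)
    (θ : ℝ) (hθ : ∀ i, (k i : ℝ) / (2 * k i + 1) < θ) (good : ℤ × ℤ → Prop)
    [DecidablePred good]
    (hgood : ∀ x, good x ↔ ((∀ i, 4 * (hv (4 * k i) (A i) x.1 x.2) ^ 3 +
        27 * (hv (6 * k i) (B i) x.1 x.2) ^ 2 ≠ 0) ∧
      ∀ τ : Fin n → ℍ, (∀ i, ModularForm.E₄ (τ i) ^ 3 =
        ((jE (hv (4 * k i) (A i) x.1 x.2) (hv (6 * k i) (B i) x.1 x.2) : ℚ) : ℂ) *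
          ModularForm.discriminant (τ i)) →
      ∑ i, hF (jE (hv (4 * k i) (A i) x.1 x.2) (hv (6 * k i) (B i) x.1 x.2)) (τ i) ≤
        θ * Real.log (∏ i, (cond6 (hv (4 * k i) (A i) x.1 x.2)
          (hv (6 * k i) (B i) x.1 x.2) : ℝ)))) :
    Filter.Tendsto (fun H : ℕ => (((box H).filter good).card : ℝ) / (box H).card)
      Filter.atTop (nhds 1) := by
  apply tendsto_one_of_few
  intro δ hδ
  obtain ⟨H₀, h⟩ := glue hfin n k A B hk hA hB hD hmin hj hP θ hθ δ hδ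
  refine ⟨H₀, fun H hH s hs hx => h H hH s hs fun x hxs => ?_⟩
  rw [← hgood x]
  exact hx x hxs

end Pool.Agent.W355.FR
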