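import Pool.Agent.W355.FR.Stm

namespace Pool.Agent.W355.FR

open Polynomial

theorem hv_add' (D : ℕ) (f g : ℤ[X]) (a b : ℤ) : hv D (f + g) a b = hv D f a b + hv D g a b := by
  unfold hv
  rw [← Finset.sum_add_distrib]
  refine Finset.sum_congr rfl fun i _ => ?_
  rw [coeff_add]; ring

theorem hv_C' (D : ℕ) (c a b : ℤ) : hv D (C c) a b = c * b ^ D := by
  unfold hv
  rw [Finset.sum_eq_single 0]
  · simp
  · intro j _ hj
    rw [coeff_C, if_neg hj]; ring
  · intro h
    exact absurd (Finset.mem_range.mpr (by omega)) h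

theorem hv_of_b_dvd (P : ℤ[X]) (p : ℤ) (a b : ℤ) (hb : p ∣ b) (h : p ∣ hv P.natDegree P a b) :
    p ∣ P.leadingCoeff * a ^ P.natDegree := by
  unfold hv at h
  rw [Finset.sum_range_succ] at h
  have h2 : p ∣ ∑ i ∈ Finset.range P.natDegree, P.coeff i * a ^ i * b ^ (P.natDegree - i) := by
    refine Finset.dvd_sum fun i hi => ?_
    rw [Finset.mem_range] at hi
    exact Dvd.dvd.mul_left (hb.trans (dvd_pow_self b (by omega))) _
  have h3 := (dvd_add_right h2).mp h
  rw [Nat.sub_self, pow_zero, mul_one] at h3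
  exact h3

theorem int_bezout (P Q : ℤ[X])
    (h : IsCoprime (P.map (Int.castRingHom ℚ)) (Q.map (Int.castRingHom ℚ))) :
    ∃ (u v : ℤ[X]) (R : ℤ), R ≠ 0 ∧ u * P + v * Q = C R := by
  obtain ⟨u, v, huv⟩ := h
  obtain ⟨bu, hbu⟩ := IsLocalization.integerNormalization_map_to_map (nonZeroDivisors ℤ) u
  obtain ⟨bv, hbv⟩ := IsLocalization.integerNormalization_map_to_map (nonZeroDivisors ℤ) v
  set u' := IsLocalization.integerNormalization (nonZeroDivisors ℤ) u
  set v' := IsLocalization.integerNormalization (nonZeroDivisors ℤ) v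
  have hbu0 : (bu : ℤ) ≠ 0 := nonZeroDivisors.coe_ne_zero bu
  have hbv0 : (bv : ℤ) ≠ 0 := nonZeroDivisors.coe_ne_zero bv
  refine ⟨C (bv : ℤ) * u', C (bu : ℤ) * v', (bu : ℤ) * (bv : ℤ), mul_ne_zero hbu0 hbv0, ?_⟩
  apply Polynomial.map_injective (Int.castRingHom ℚ) Int.cast_injective
  have e1 : u'.map (Int.castRingHom ℚ) = ((bu : ℤ) : ℤ) • u := hbu
  have e2 : v'.map (Int.castRingHom ℚ) = ((bv : ℤ) : ℤ) • v := hbv
  rw [Polynomial.map_add, Polynomial.map_mul, Polynomial.map_mul, Polynomial.map_mul,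
    Polynomial.map_mul, e1, e2, Polynomial.map_C, Polynomial.map_C, Polynomial.map_C]
  have e3 : ((bu : ℤ) : ℤ) • u = C (((bu : ℤ)) : ℚ) * u := by
    rw [← smul_eq_C_mul]; simp [Int.cast_smul_eq_zsmul]
  have e4 : ((bv : ℤ) : ℤ) • v = C (((bv : ℤ)) : ℚ) * v := by
    rw [← smul_eq_C_mul]; simp [Int.cast_smul_eq_zsmul]
  rw [e3, e4]
  simp only [eq_intCast, Int.cast_mul, map_mul]
  calc _ = C ((bu : ℤ) : ℚ) * C ((bv : ℤ) : ℚ) *
        (u * P.map (Int.castRingHom ℚ) + v * Q.map (Int.castRingHom ℚ)) := by ring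
    _ = _ := by rw [huv, mul_one]

theorem res : P_RES := by
  intro hvm D P Q hP hQ hcop
  obtain ⟨u, v, R, hR, hB⟩ := int_bezout P Q hcop
  have hlc : P.leadingCoeff ≠ 0 := by
    intro h
    rw [leadingCoeff_eq_zero] at h
    rw [h] at hP; simp at hP
  refine ⟨max R.natAbs P.leadingCoeff.natAbs, fun p hp hpz a b hab h1 h2 => ?_⟩
  have hpZ : Prime (p : ℤ) := Nat.prime_iff_prime_int.mp hp
  have hndvd : ∀ c : ℤ, c ≠ 0 → c.natAbs < p → ¬ (p : ℤ) ∣ c := by
    intro c hc hlt hd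
    have := Nat.le_of_dvd (Int.natAbs_pos.mpr hc) (Int.natCast_dvd.mp hd)
    omega
  -- common degree
  set m := u.natDegree + P.natDegree + v.natDegree + D with hm
  have e1 : hv m (u * P) a b = hv (m - P.natDegree) u a b * hv P.natDegree P a b := by
    have := hvm (m - P.natDegree) P.natDegree u P (by omega) le_rfl a b
    rwa [Nat.sub_add_cancel (by omega)] at this
  have e2 : hv m (v * Q) a b = hv (m - D) v a b * hv D Q a b := by
    have := hvm (m - D) D v Q (by omega) hQ a b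
    rwa [Nat.sub_add_cancel (by omega)] at this
  have e3 : (p : ℤ) ∣ R * b ^ m := by
    rw [← hv_C', ← hB, hv_add', e1, e2]
    exact dvd_add (Dvd.dvd.mul_left h1 _) (Dvd.dvd.mul_left h2 _)
  rcases hpZ.dvd_or_dvd e3 with h3 | h3
  · exact hndvd R hR (lt_of_le_of_lt (le_max_left _ _) hpz) h3
  · have hb : (p : ℤ) ∣ b := hpZ.dvd_of_dvd_pow h3
    have h4 := hv_of_b_dvd P p a b hb h1
    rcases hpZ.dvd_or_dvd h4 with h5 | h5
    · exact hndvd _ hlc (lt_of_le_of_lt (le_max_right _ _) hpz) h5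
    · have ha : (p : ℤ) ∣ a := hpZ.dvd_of_dvd_pow h5
      have hg : (p : ℤ) ∣ (Int.gcd a b : ℤ) := Int.dvd_coe_gcd ha hb
      rw [hab] at hg
      have := Int.eq_one_of_dvd_one (by positivity) hg
      have h2' := hp.two_le
      omega

end Pool.Agent.W355.FR
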