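import Pool.Agent.W355.FR.Stm

namespace Pool.Agent.W355.FR

open Polynomial UpperHalfPlane

theorem den_num_bound (u v : ℤ) (hv0 : v ≠ 0) (j : ℚ) (hj : j = (u : ℚ) / v) :
    (j.den : ℝ) ≤ |(v : ℝ)| ∧ (j.den : ℝ) * |(j : ℝ)| ≤ |(u : ℝ)| := by
  have e : j = Rat.divInt u v := by rw [hj, Rat.divInt_eq_div]
  have h1 : (j.den : ℤ) ∣ v := by rw [e]; exact Rat.den_dvd u v
  have h2 : j.num ∣ u := by rw [e]; exact Rat.num_dvd u hv0
  constructor
  · have := Int.le_of_dvd (abs_pos.mpr hv0) ((dvd_abs _ _).mpr h1)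
    exact_mod_cast this
  · have hd : (0 : ℝ) < j.den := by exact_mod_cast j.den_pos
    have e2 : (j.den : ℝ) * |(j : ℝ)| = |(j.num : ℝ)| := by
      have : (j : ℝ) = (j.num : ℝ) / (j.den : ℝ) := by exact_mod_cast (Rat.num_div_den j).symm
      rw [this, abs_div, abs_of_pos hd]
      field_simp
    rw [e2]
    by_cases hu : u = 0
    · subst hu
      have : j = 0 := by rw [hj]; simp
      rw [this]; simp
    · have := Int.le_of_dvd (abs_pos.mpr hu) ((abs_dvd_abs _ _).mpr h2)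
      exact_mod_cast this

theorem ubl : P_UBL := by
  rintro ⟨c, hc, hana⟩
  refine ⟨-Real.log c / 12, fun a b hD τ hE => ?_⟩
  set j := jE a b with hjdef
  have hΔ0 : ModularForm.discriminant τ ≠ 0 := ModularForm.discriminant_ne_zero τ
  have hΔ : 0 < ‖ModularForm.discriminant τ‖ := norm_pos_iff.mpr hΔ0
  have hy : 0 < τ.im := τ.im_pos
  have h0 := hana τ
  have hE' : ‖ModularForm.E₄ τ‖ ^ 3 = |(j : ℝ)| * ‖ModularForm.discriminant τ‖ := by
    rw [← norm_pow, hE, norm_mul]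
    congr 1
    rw [← Complex.ofReal_ratCast, Complex.norm_real, Real.norm_eq_abs]
  rw [hE'] at h0
  have hmax : max ‖ModularForm.discriminant τ‖ (|(j : ℝ)| * ‖ModularForm.discriminant τ‖) =
      ‖ModularForm.discriminant τ‖ * max 1 |(j : ℝ)| := by
    rw [mul_max_of_nonneg _ _ hΔ.le, mul_one, mul_comm]
  rw [hmax] at h0
  have hm1 : (0 : ℝ) < max 1 |(j : ℝ)| := lt_of_lt_of_le one_pos (le_max_left _ _)
  have h1 : Real.log c ≤ Real.log (max 1 |(j : ℝ)|) +
      Real.log (‖ModularForm.discriminant τ‖ * τ.im ^ 6) := by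
    rw [← Real.log_mul hm1.ne' (by positivity)]
    refine Real.log_le_log hc (h0.trans (le_of_eq ?_))
    ring
  obtain ⟨hd, hn⟩ := den_num_bound (6912 * a ^ 3) (4 * a ^ 3 + 27 * b ^ 2) hD j (by
    rw [hjdef, jE]; push_cast; ring)
  have hden : (0 : ℝ) < j.den := by exact_mod_cast j.den_pos
  have h2 : Real.log j.den + Real.log (max 1 |(j : ℝ)|) ≤
      Real.log (max (6912 * |(a : ℝ)| ^ 3) |4 * (a : ℝ) ^ 3 + 27 * (b : ℝ) ^ 2|) := by
    rw [← Real.log_mul hden.ne' hm1.ne']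
    refine Real.log_le_log (by positivity) ?_
    rw [mul_max_of_nonneg _ _ hden.le, mul_one]
    refine max_le ((hd.trans (le_of_eq ?_)).trans (le_max_right _ _))
      ((hn.trans (le_of_eq ?_)).trans (le_max_left _ _))
    · push_cast; rfl
    · push_cast
      rw [abs_mul, abs_pow]
      norm_num
  have hpi : 0 ≤ Real.log (2 * Real.pi) := Real.log_nonneg (by linarith [Real.pi_gt_three])
  unfold hF
  linarith

end Pool.Agent.W355.FR
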