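import Mathlib

/-!
Project FR (MP_c59389_nt).  Families `y² = x³ + A(t) x + B(t)` of elliptic curves,
`A, B ∈ ℤ[X]`, `deg A ≤ 4k`, `deg B ≤ 6k`, `deg (4A³+27B²) = 12k`.
-/

namespace Pool.Agent.W355.FR

open Polynomial UpperHalfPlane

/-- Value at `(a,b)` of the binary form of degree `D` attached to `f`:
`∑ f_i a^i b^(D-i)`. -/
noncomputable def hv (D : ℕ) (f : ℤ[X]) (a b : ℤ) : ℤ :=
  ∑ i ∈ Finset.range (D + 1), f.coeff i * a ^ i * b ^ (D - i)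

/-- The coprime pairs `(a,b)` with `|a|,|b| ≤ H`. -/
noncomputable def box (H : ℕ) : Finset (ℤ × ℤ) :=
  ((Finset.Icc (-(H : ℤ)) H) ×ˢ (Finset.Icc (-(H : ℤ)) H)).filter
    (fun x => Int.gcd x.1 x.2 = 1)

open Classical in
/-- Conductor exponent at a prime `p ≥ 5` of `y² = x³ + a x + b`: `0` for good, `1` for
multiplicative, `2` for additive reduction. -/
noncomputable def condExp (p : ℕ) (a b : ℤ) : ℕ :=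
  if ∃ (m : ℕ) (a' b' : ℤ), a = (p : ℤ) ^ (4 * m) * a' ∧ b = (p : ℤ) ^ (6 * m) * b' ∧
      ¬ (p : ℤ) ∣ 4 * a' ^ 3 + 27 * b' ^ 2 then 0
  else if ∃ (m : ℕ) (a' b' : ℤ), a = (p : ℤ) ^ (4 * m) * a' ∧ b = (p : ℤ) ^ (6 * m) * b' ∧
      ¬ (p : ℤ) ∣ a' then 1
  else 2

/-- The prime-to-6 part of the conductor of `y² = x³ + a x + b`. -/
noncomputable def cond6 (a b : ℤ) : ℕ :=
  ∏ p ∈ (4 * a ^ 3 + 27 * b ^ 2).natAbs.primeFactors.filter (fun p => 5 ≤ p), p ^ condExp p a b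

/-- The `j`-invariant of `y² = x³ + a x + b`. -/
def jE (a b : ℤ) : ℚ := 6912 * (a : ℚ) ^ 3 / (4 * (a : ℚ) ^ 3 + 27 * (b : ℚ) ^ 2)

/-- The stable Faltings height of an elliptic curve over `ℚ` with `j`-invariant `j`, where `τ` is
a point of the upper half plane with `j(τ) = j`. -/
noncomputable def hF (j : ℚ) (τ : ℍ) : ℝ :=
  (Real.log j.den - Real.log (‖ModularForm.discriminant τ‖ * τ.im ^ 6)) / 12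
    - Real.log (2 * Real.pi)

/-- The weight of a place `P` of bad reduction. -/
noncomputable def wt (P A : ℤ[X]) : ℕ := by classical exact if P ∣ A then 2 else 1

/-! ### Part HVM -/

/-- multiplicativity of the form values -/
def P_HVM : Prop := ∀ (D₁ D₂ : ℕ) (f g : ℤ[X]), f.natDegree ≤ D₁ → g.natDegree ≤ D₂ →
  ∀ a b : ℤ, hv (D₁ + D₂) (f * g) a b = hv D₁ f a b * hv D₂ g a b

/-! ### Part ANA -/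

/-- lower bound for `max(|Δ|,|E₄|³) Im^6` on the upper half plane -/
def P_ANA : Prop := ∃ c : ℝ, 0 < c ∧ ∀ τ : ℍ,
  c ≤ max ‖ModularForm.discriminant τ‖ (‖ModularForm.E₄ τ‖ ^ 3) * τ.im ^ 6

/-! ### Part UB -/

/-- upper bound for the Faltings height -/
def P_UB : Prop := ∃ C : ℝ, ∀ a b : ℤ, 4 * a ^ 3 + 27 * b ^ 2 ≠ 0 → ∀ τ : ℍ,
  ModularForm.E₄ τ ^ 3 = ((jE a b : ℚ) : ℂ) * ModularForm.discriminant τ →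
  hF (jE a b) τ ≤
    Real.log (max (6912 * |(a : ℝ)| ^ 3) |4 * (a : ℝ) ^ 3 + 27 * (b : ℝ) ^ 2|) / 12 + C

def P_UBL : Prop := P_ANA → P_UB

/-! ### Part MSQ: function field Szpiro inequality over `ℚ[X]` -/

def P_MSQ : Prop := ∀ (k : ℕ) (A B : ℚ[X]), A.natDegree ≤ 4 * k → B.natDegree ≤ 6 * k →
  (4 * A ^ 3 + 27 * B ^ 2).natDegree = 12 * k → 4 * A ^ 3 + 27 * B ^ 2 ≠ 0 →
  (∀ P : ℚ[X], Irreducible P → P ^ 4 ∣ A → ¬ P ^ 6 ∣ B) →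
  3 * derivative A * B - 2 * A * derivative B ≠ 0 →
  ∀ T : Finset ℚ[X], (∀ P ∈ T, Irreducible P ∧ P.Monic) →
    (∀ P : ℚ[X], Irreducible P → P.Monic → P ∣ 4 * A ^ 3 + 27 * B ^ 2 → P ∈ T) →
    (∀ P ∈ T, P ∣ 4 * A ^ 3 + 27 * B ^ 2) →
    ∀ w : ℚ[X] → ℕ, (∀ P ∈ T, P ∣ A → w P = 2) → (∀ P ∈ T, ¬ P ∣ A → w P = 1) →
    2 * k + 1 ≤ ∑ P ∈ T, w P * P.natDegree

/-- the same over `ℤ[X]` -/
def P_MSZ : Prop := ∀ (k : ℕ) (A B : ℤ[X]), A.natDegree ≤ 4 * k → B.natDegree ≤ 6 * k →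
  (4 * A ^ 3 + 27 * B ^ 2).natDegree = 12 * k → 4 * A ^ 3 + 27 * B ^ 2 ≠ 0 →
  (∀ P : ℤ[X], Irreducible P → 0 < P.natDegree → P ^ 4 ∣ A → ¬ P ^ 6 ∣ B) →
  3 * derivative A * B - 2 * A * derivative B ≠ 0 →
  ∃ S : Finset ℤ[X], (∀ P ∈ S, Irreducible P ∧ 0 < P.natDegree ∧ P ∣ 4 * A ^ 3 + 27 * B ^ 2) ∧
    (∀ P ∈ S, ∀ Q ∈ S, P ≠ Q →
      IsCoprime (P.map (Int.castRingHom ℚ)) (Q.map (Int.castRingHom ℚ))) ∧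
    2 * k + 1 ≤ ∑ P ∈ S, wt P A * P.natDegree

def P_MST : Prop := P_MSQ → P_MSZ

/-! ### Sieve parts -/

/-- the classes modulo `p²` -/
def P_RL : Prop := ∀ P : ℤ[X], Irreducible P → 0 < P.natDegree → ∃ p₀ : ℕ, ∀ p : ℕ, p.Prime →
  p₀ < p → ∃ R : Finset ℤ, R.card ≤ P.natDegree ∧ ∀ a b : ℤ, Int.gcd a b = 1 →
    (p : ℤ) ^ 2 ∣ hv P.natDegree P a b → ∃ r ∈ R, (p : ℤ) ^ 2 ∣ a - r * b ∧ ¬ (p : ℤ) ∣ b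

/-- counting in one class -/
def P_CL : Prop := ∀ (H p : ℕ) (r : ℤ), p.Prime →
  ((((box H).filter (fun x => (p : ℤ) ^ 2 ∣ x.1 - r * x.2)).card : ℝ) ≤
    (2 * H + 1) * (2 * H / (p : ℝ) ^ 2 + 1)) ∧
  (2 * H ^ 2 < p ^ 2 → ((box H).filter (fun x => (p : ℤ) ^ 2 ∣ x.1 - r * x.2)).card ≤ 2)

/-- summation over the primes -/
def P_SQ : Prop := ∀ (P : ℤ[X]), Irreducible P → 0 < P.natDegree → P.natDegree ≤ 4 →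
  ∀ δ : ℝ, 0 < δ → ∃ z₀ : ℕ, ∀ z : ℕ, z₀ ≤ z → ∃ H₀ : ℕ, ∀ H : ℕ, H₀ ≤ H →
  ∀ s : Finset (ℤ × ℤ), s ⊆ box H →
    (∀ x ∈ s, ∃ p : ℕ, p.Prime ∧ z < p ∧ (p : ℤ) ^ 2 ∣ hv P.natDegree P x.1 x.2) →
    (s.card : ℝ) ≤ δ * (H : ℝ) ^ 2

def P_SUMP : Prop := P_RL → P_CL → P_SQ

/-- few pairs with a large smooth part -/
def P_SMO : Prop := ∀ (P : ℤ[X]), 0 < P.natDegree → ∀ (z : ℕ) (ε δ : ℝ), 0 < ε → 0 < δ →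
  ∃ H₀ : ℕ, ∀ H : ℕ, H₀ ≤ H → ∀ s : Finset (ℤ × ℤ), s ⊆ box H →
    (∀ x ∈ s, ∃ p : ℕ, p.Prime ∧ p ≤ z ∧ ∃ e : ℕ, (H : ℝ) ^ ε < (p : ℝ) ^ e ∧
      (p : ℤ) ^ e ∣ hv P.natDegree P x.1 x.2) →
    (s.card : ℝ) ≤ δ * (H : ℝ) ^ 2

/-- few pairs with a small value -/
def P_SMA : Prop := ∀ (P : ℤ[X]), 0 < P.natDegree → ∀ (ε δ : ℝ), 0 < ε → 0 < δ →
  ∃ H₀ : ℕ, ∀ H : ℕ, H₀ ≤ H → ∀ s : Finset (ℤ × ℤ), s ⊆ box H →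
    (∀ x ∈ s, |((hv P.natDegree P x.1 x.2 : ℤ) : ℝ)| ≤ (H : ℝ) ^ ((P.natDegree : ℝ) - ε)) →
    (s.card : ℝ) ≤ δ * (H : ℝ) ^ 2

/-- lower bound for the part of the radical with primes `> z` -/
def P_RAD : Prop := ∀ (P : ℤ[X]), Irreducible P → 0 < P.natDegree → P.natDegree ≤ 4 →
  ∀ (ε δ : ℝ), 0 < ε → 0 < δ → ∀ z₁ : ℕ, ∃ z : ℕ, z₁ ≤ z ∧ ∃ H₀ : ℕ, ∀ H : ℕ, H₀ ≤ H →
  ∀ s : Finset (ℤ × ℤ), s ⊆ box H →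
    (∀ x ∈ s, ¬ ((∀ p : ℕ, p.Prime → z < p → ¬ (p : ℤ) ^ 2 ∣ hv P.natDegree P x.1 x.2) ∧
      hv P.natDegree P x.1 x.2 ≠ 0 ∧
      ((P.natDegree : ℝ) - ε) * Real.log H ≤
        ∑ p ∈ (hv P.natDegree P x.1 x.2).natAbs.primeFactors.filter (fun p => z < p),
          Real.log p)) →
    (s.card : ℝ) ≤ δ * (H : ℝ) ^ 2

def P_RADL : Prop := P_SQ → P_SMO → P_SMA → P_RAD

/-! ### Local parts -/

/-- resultant -/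
def P_RES : Prop := P_HVM → ∀ (D : ℕ) (P Q : ℤ[X]), 0 < P.natDegree → Q.natDegree ≤ D →
  IsCoprime (P.map (Int.castRingHom ℚ)) (Q.map (Int.castRingHom ℚ)) →
  ∃ z : ℕ, ∀ p : ℕ, p.Prime → z < p → ∀ a b : ℤ, Int.gcd a b = 1 →
    (p : ℤ) ∣ hv P.natDegree P a b → ¬ (p : ℤ) ∣ hv D Q a b

/-- reduction types -/
def P_LC : Prop := ∀ (k : ℕ) (A B P : ℤ[X]), A.natDegree ≤ 4 * k → B.natDegree ≤ 6 * k →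
  A ≠ 0 → B ≠ 0 → Irreducible P → 0 < P.natDegree → P ∣ 4 * A ^ 3 + 27 * B ^ 2 →
  (P ^ 4 ∣ A → ¬ P ^ 6 ∣ B) →
  ∃ z : ℕ, ∀ p : ℕ, p.Prime → z < p → ∀ a b : ℤ, Int.gcd a b = 1 →
    (p : ℤ) ∣ hv P.natDegree P a b → ¬ (p : ℤ) ^ 2 ∣ hv P.natDegree P a b →
    (p : ℤ) ∣ 4 * (hv (4 * k) A a b) ^ 3 + 27 * (hv (6 * k) B a b) ^ 2 ∧
    wt P A ≤ condExp p (hv (4 * k) A a b) (hv (6 * k) B a b)

def P_LOC : Prop := P_HVM → P_RES → P_LC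

/-! ### Conductor -/

/-- lower bound for the conductor for almost all members -/
def P_CN : Prop := ∀ (k : ℕ) (A B : ℤ[X]), A.natDegree ≤ 4 * k → B.natDegree ≤ 6 * k →
  A ≠ 0 → B ≠ 0 → 4 * A ^ 3 + 27 * B ^ 2 ≠ 0 →
  ∀ S : Finset ℤ[X], (∀ P ∈ S, Irreducible P ∧ 0 < P.natDegree ∧ P.natDegree ≤ 4 ∧
      P ∣ 4 * A ^ 3 + 27 * B ^ 2 ∧ (P ^ 4 ∣ A → ¬ P ^ 6 ∣ B)) →
    (∀ P ∈ S, ∀ Q ∈ S, P ≠ Q →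
      IsCoprime (P.map (Int.castRingHom ℚ)) (Q.map (Int.castRingHom ℚ))) →
  ∀ (ε δ : ℝ), 0 < ε → 0 < δ → ∃ H₀ : ℕ, ∀ H : ℕ, H₀ ≤ H → ∀ s : Finset (ℤ × ℤ), s ⊆ box H →
    (∀ x ∈ s, ¬ ((((∑ P ∈ S, wt P A * P.natDegree : ℕ) : ℝ) - ε) * Real.log H ≤
      Real.log (cond6 (hv (4 * k) A x.1 x.2) (hv (6 * k) B x.1 x.2)) ∧
      4 * (hv (4 * k) A x.1 x.2) ^ 3 + 27 * (hv (6 * k) B x.1 x.2) ^ 2 ≠ 0)) →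
    (s.card : ℝ) ≤ δ * (H : ℝ) ^ 2

/-- few zeros -/
def P_ZER : Prop := ∀ (D : ℕ) (f : ℤ[X]), f ≠ 0 → f.natDegree ≤ D →
  ∀ (δ : ℝ), 0 < δ → ∃ H₀ : ℕ, ∀ H : ℕ, H₀ ≤ H → ∀ s : Finset (ℤ × ℤ), s ⊆ box H →
    (∀ x ∈ s, hv D f x.1 x.2 = 0) → (s.card : ℝ) ≤ δ * (H : ℝ) ^ 2

def P_CNL : Prop := P_HVM → P_RAD → P_LC → P_RES → P_ZER → P_CN

/-! ### Final statement -/

def P_FIN : Prop := ∀ (k : ℕ) (A B : ℤ[X]), 1 ≤ k → A.natDegree ≤ 4 * k →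
  B.natDegree ≤ 6 * k → (4 * A ^ 3 + 27 * B ^ 2).natDegree = 12 * k →
  (∀ P : ℤ[X], Irreducible P → 0 < P.natDegree → P ^ 4 ∣ A → ¬ P ^ 6 ∣ B) →
  3 * derivative A * B - 2 * A * derivative B ≠ 0 →
  (∀ P : ℤ[X], Irreducible P → P ∣ 4 * A ^ 3 + 27 * B ^ 2 → P.natDegree ≤ 4) →
  ∀ θ : ℝ, (k : ℝ) / (2 * k + 1) < θ → ∀ δ : ℝ, 0 < δ → ∃ H₀ : ℕ, ∀ H : ℕ, H₀ ≤ H →
  ∀ s : Finset (ℤ × ℤ), s ⊆ box H →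
    (∀ x ∈ s, ¬ (4 * (hv (4 * k) A x.1 x.2) ^ 3 + 27 * (hv (6 * k) B x.1 x.2) ^ 2 ≠ 0 ∧
      ∀ τ : ℍ, ModularForm.E₄ τ ^ 3 =
        ((jE (hv (4 * k) A x.1 x.2) (hv (6 * k) B x.1 x.2) : ℚ) : ℂ) *
          ModularForm.discriminant τ →
      hF (jE (hv (4 * k) A x.1 x.2) (hv (6 * k) B x.1 x.2)) τ ≤
        θ * Real.log (cond6 (hv (4 * k) A x.1 x.2) (hv (6 * k) B x.1 x.2)))) →
    (s.card : ℝ) ≤ δ * (H : ℝ) ^ 2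

def P_FINL : Prop := P_MSZ → P_CN → P_UB → P_FIN

end Pool.Agent.W355.FR
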