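import Pool.Agent.W355.FR.Hvm
import Pool.Agent.W355.FR.Ub
import Pool.Agent.W355.FR.Fin
import Pool.Agent.W355.FR.Lim
import Pool.Agent.W355.FR.Res
import Pool.Agent.W712.FR.Ana
import Pool.Agent.W699.FR.MSQ
import Pool.Agent.W656.FR.MST
import Pool.Agent.W598.FR.RL
import Pool.Agent.W797.FR.CL
import Pool.Agent.W81.FR.Sump
import Pool.Agent.W728.FR.SMO
import Pool.Agent.W162.FR.SMA
import Pool.Agent.W995.FR.RADL
import Pool.Agent.W921.FR.LOC
import Pool.Agent.W883.FR.Zer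
import Pool.Agent.W378.FR.Cnl

namespace Pool.Agent.W355.FR

theorem fin : P_FIN :=
  finl (Pool.Agent.W656.FR.t_MST Pool.Agent.W699.FR.main)
    (Pool.Agent.W378.FR.Cnl.cnl hvm
      (Pool.Agent.W995.FR.RADL.main
        (Pool.Agent.W81.FR.sump Pool.Agent.W598.FR.main Pool.Agent.W797.FR.cl)
        Pool.Agent.W728.FR.main Pool.Agent.W162.FR.sma)
      (Pool.Agent.W921.FR.LOC.pf hvm res) res Pool.Agent.W883.FR.zer)
    (ubl Pool.Agent.W712.FR.ana)

end Pool.Agent.W355.FR
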