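import Pool.Agent.W355.FR.Stm

namespace Pool.Agent.W355.FR

open Polynomial UpperHalfPlane

theorem glue (hfin : P_FIN) (n : ℕ) (k : Fin n → ℕ) (A B : Fin n → ℤ[X])
    (hk : ∀ i, 1 ≤ k i) (hA : ∀ i, (A i).natDegree ≤ 4 * k i)
    (hB : ∀ i, (B i).natDegree ≤ 6 * k i)
    (hD : ∀ i, (4 * A i ^ 3 + 27 * B i ^ 2).natDegree = 12 * k i)
    (hmin : ∀ i, ∀ P : ℤ[X], Irreducible P → 0 < P.natDegree → P ^ 4 ∣ A i → ¬ P ^ 6 ∣ B i)
    (hj : ∀ i, 3 * derivative (A i) * B i - 2 * A i * derivative (B i) ≠ 0)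
    (hP : ∀ i, ∀ P : ℤ[X], Irreducible P → P ∣ 4 * A i ^ 3 + 27 * B i ^ 2 → P.natDegree ≤ 4)
    (θ : ℝ) (hθ : ∀ i, (k i : ℝ) / (2 * k i + 1) < θ) (δ : ℝ) (hδ : 0 < δ) :
    ∃ H₀ : ℕ, ∀ H : ℕ, H₀ ≤ H → ∀ s : Finset (ℤ × ℤ), s ⊆ box H →
    (∀ x ∈ s, ¬ ((∀ i, 4 * (hv (4 * k i) (A i) x.1 x.2) ^ 3 +
        27 * (hv (6 * k i) (B i) x.1 x.2) ^ 2 ≠ 0) ∧
      ∀ τ : Fin n → ℍ, (∀ i, ModularForm.E₄ (τ i) ^ 3 =
        ((jE (hv (4 * k i) (A i) x.1 x.2) (hv (6 * k i) (B i) x.1 x.2) : ℚ) : ℂ) *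
          ModularForm.discriminant (τ i)) →
      ∑ i, hF (jE (hv (4 * k i) (A i) x.1 x.2) (hv (6 * k i) (B i) x.1 x.2)) (τ i) ≤
        θ * Real.log (∏ i, (cond6 (hv (4 * k i) (A i) x.1 x.2)
          (hv (6 * k i) (B i) x.1 x.2) : ℝ)))) →
    (s.card : ℝ) ≤ δ * (H : ℝ) ^ 2 := by
  classical
  have h1 : ∀ i, ∃ H₀ : ℕ, ∀ H : ℕ, H₀ ≤ H → ∀ s : Finset (ℤ × ℤ), s ⊆ box H →
      (∀ x ∈ s, ¬ (4 * (hv (4 * k i) (A i) x.1 x.2) ^ 3 +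
        27 * (hv (6 * k i) (B i) x.1 x.2) ^ 2 ≠ 0 ∧
      ∀ τ : ℍ, ModularForm.E₄ τ ^ 3 =
        ((jE (hv (4 * k i) (A i) x.1 x.2) (hv (6 * k i) (B i) x.1 x.2) : ℚ) : ℂ) *
          ModularForm.discriminant τ →
      hF (jE (hv (4 * k i) (A i) x.1 x.2) (hv (6 * k i) (B i) x.1 x.2)) τ ≤
        θ * Real.log (cond6 (hv (4 * k i) (A i) x.1 x.2) (hv (6 * k i) (B i) x.1 x.2)))) →
      (s.card : ℝ) ≤ (δ / (n + 1)) * (H : ℝ) ^ 2 := fun i =>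
    hfin (k i) (A i) (B i) (hk i) (hA i) (hB i) (hD i) (hmin i) (hj i) (hP i) θ (hθ i)
      (δ / (n + 1)) (by positivity)
  choose H₀ hH₀ using h1
  refine ⟨Finset.univ.sup H₀, fun H hH s hs hx => ?_⟩
  set bad : Fin n → Finset (ℤ × ℤ) := fun i => s.filter (fun x =>
      ¬ (4 * (hv (4 * k i) (A i) x.1 x.2) ^ 3 +
        27 * (hv (6 * k i) (B i) x.1 x.2) ^ 2 ≠ 0 ∧
      ∀ τ : ℍ, ModularForm.E₄ τ ^ 3 =
        ((jE (hv (4 * k i) (A i) x.1 x.2) (hv (6 * k i) (B i) x.1 x.2) : ℚ) : ℂ) *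
          ModularForm.discriminant τ →
      hF (jE (hv (4 * k i) (A i) x.1 x.2) (hv (6 * k i) (B i) x.1 x.2)) τ ≤
        θ * Real.log (cond6 (hv (4 * k i) (A i) x.1 x.2) (hv (6 * k i) (B i) x.1 x.2))))
    with hbad
  have hsub : s ⊆ Finset.univ.biUnion bad := by
    intro x hxs
    by_contra hc
    rw [Finset.mem_biUnion] at hc
    push_neg at hc
    apply hx x hxs
    have hg : ∀ i, (4 * (hv (4 * k i) (A i) x.1 x.2) ^ 3 +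
        27 * (hv (6 * k i) (B i) x.1 x.2) ^ 2 ≠ 0 ∧
      ∀ τ : ℍ, ModularForm.E₄ τ ^ 3 =
        ((jE (hv (4 * k i) (A i) x.1 x.2) (hv (6 * k i) (B i) x.1 x.2) : ℚ) : ℂ) *
          ModularForm.discriminant τ →
      hF (jE (hv (4 * k i) (A i) x.1 x.2) (hv (6 * k i) (B i) x.1 x.2)) τ ≤
        θ * Real.log (cond6 (hv (4 * k i) (A i) x.1 x.2) (hv (6 * k i) (B i) x.1 x.2))) := by
      intro i
      by_contra hn
      exact hc i (Finset.mem_univ i) (Finset.mem_filter.mpr ⟨hxs, hn⟩)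
    refine ⟨fun i => (hg i).1, fun τ hτ => ?_⟩
    have hpos : ∀ i, (0 : ℝ) < (cond6 (hv (4 * k i) (A i) x.1 x.2)
          (hv (6 * k i) (B i) x.1 x.2) : ℝ) := by
      intro i
      rw [Nat.cast_pos]
      refine Finset.prod_pos fun p hp => ?_
      have := (Finset.mem_filter.mp hp).2
      positivity
    rw [Real.log_prod (fun i _ => (hpos i).ne'), Finset.mul_sum]
    exact Finset.sum_le_sum fun i _ => (hg i).2 (τ i) (hτ i)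
  have hcard : (s.card : ℝ) ≤ ∑ i : Fin n, ((bad i).card : ℝ) := by
    have := (Finset.card_le_card hsub).trans Finset.card_biUnion_le
    exact_mod_cast this
  have hb : ∀ i, ((bad i).card : ℝ) ≤ (δ / (n + 1)) * (H : ℝ) ^ 2 := by
    intro i
    refine hH₀ i H ((Finset.le_sup (Finset.mem_univ i)).trans hH) (bad i)
      ((Finset.filter_subset _ _).trans hs) fun x hx => (Finset.mem_filter.mp hx).2
  calc (s.card : ℝ) ≤ ∑ i : Fin n, ((bad i).card : ℝ) := hcard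
    _ ≤ ∑ _i : Fin n, (δ / (n + 1)) * (H : ℝ) ^ 2 := Finset.sum_le_sum fun i _ => hb i
    _ = n * ((δ / (n + 1)) * (H : ℝ) ^ 2) := by simp
    _ ≤ δ * (H : ℝ) ^ 2 := by
        have : (n : ℝ) * (δ / (n + 1)) ≤ δ := by
          rw [mul_div_assoc', div_le_iff₀ (by positivity)]
          nlinarith
        nlinarith [sq_nonneg (H : ℝ)]

end Pool.Agent.W355.FR
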