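import Pool.Agent.W355.FR.Stm

namespace Pool.Agent.W355.FR

open Polynomial

theorem hv_sum {ι : Type*} (s : Finset ι) (D : ℕ) (f : ι → ℤ[X]) (a b : ℤ) :
    hv D (∑ i ∈ s, f i) a b = ∑ i ∈ s, hv D (f i) a b := by
  classical
  unfold hv
  rw [Finset.sum_comm]
  refine Finset.sum_congr rfl fun i _ => ?_
  rw [Polynomial.finset_sum_coeff, Finset.sum_mul, Finset.sum_mul]

theorem hv_monomial (D i : ℕ) (hi : i ≤ D) (c a b : ℤ) :
    hv D (monomial i c) a b = c * a ^ i * b ^ (D - i) := by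
  unfold hv
  rw [Finset.sum_eq_single i]
  · rw [coeff_monomial, if_pos rfl]
  · intro j _ hj
    rw [coeff_monomial, if_neg (Ne.symm hj)]; ring
  · intro h
    exact absurd (Finset.mem_range.mpr (by omega)) h

theorem hvm : P_HVM := by
  intro D₁ D₂ f g hf hg a b
  have ef : f = ∑ i ∈ Finset.range (D₁ + 1), monomial i (f.coeff i) :=
    f.as_sum_range' (D₁ + 1) (by omega)
  have eg : g = ∑ i ∈ Finset.range (D₂ + 1), monomial i (g.coeff i) :=
    g.as_sum_range' (D₂ + 1) (by omega)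
  have e1 : f * g = ∑ i ∈ Finset.range (D₁ + 1), ∑ j ∈ Finset.range (D₂ + 1),
      monomial (i + j) (f.coeff i * g.coeff j) := by
    conv_lhs => rw [ef, eg]
    rw [Finset.sum_mul_sum]
    simp only [monomial_mul_monomial]
  rw [e1, hv_sum]
  have e2 : hv D₁ f a b * hv D₂ g a b = ∑ i ∈ Finset.range (D₁ + 1),
      ∑ j ∈ Finset.range (D₂ + 1), (f.coeff i * a ^ i * b ^ (D₁ - i)) *
        (g.coeff j * a ^ j * b ^ (D₂ - j)) := by
    unfold hv
    rw [Finset.sum_mul_sum]
  rw [e2]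
  refine Finset.sum_congr rfl fun i hi => ?_
  rw [hv_sum]
  refine Finset.sum_congr rfl fun j hj => ?_
  rw [Finset.mem_range] at hi hj
  rw [hv_monomial _ _ (by omega)]
  have : D₁ + D₂ - (i + j) = (D₁ - i) + (D₂ - j) := by omega
  rw [this, pow_add, pow_add]
  ring

end Pool.Agent.W355.FR
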